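import Mathlib

/-!
# Simultaneous diagonalisation of two positive definite matrices
-/

set_option autoImplicit false

namespace Pool.Agent.Helper41.KP

open Matrix

/-- spectral theorem for a real positive definite matrix -/
theorem spec {m : ℕ} {A : Matrix (Fin m) (Fin m) ℝ} (hA : A.PosDef) :
    ∃ (U : Matrix (Fin m) (Fin m) ℝ) (a : Fin m → ℝ), U * U.transpose = 1 ∧
      U.transpose * U = 1 ∧ (∀ l, 0 < a l) ∧ A = U * Matrix.diagonal a * U.transpose := by
  refine ⟨hA.1.eigenvectorUnitary, hA.1.eigenvalues, ?_, ?_, hA.eigenvalues_pos, ?_⟩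
  · have := Unitary.coe_mul_star_self hA.1.eigenvectorUnitary
    rwa [Unitary.coe_star, Matrix.star_eq_conjTranspose,
      Matrix.conjTranspose_eq_transpose_of_trivial] at this
  · have := Unitary.coe_star_mul_self hA.1.eigenvectorUnitary
    rwa [Matrix.star_eq_conjTranspose,
      Matrix.conjTranspose_eq_transpose_of_trivial] at this
  · have := hA.1.spectral_theorem
    rw [Unitary.conjStarAlgAut_apply, Matrix.star_eq_conjTranspose,
      Matrix.conjTranspose_eq_transpose_of_trivial] at this
    exact this

/-- two positive definite real matrices can be diagonalised by one congruence -/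
theorem simul_diag {m : ℕ} (A B : Matrix (Fin m) (Fin m) ℝ) (hA : A.PosDef) (hB : B.PosDef) :
    ∃ (c : Matrix (Fin m) (Fin m) ℝ) (a b : Fin m → ℝ), c.det ≠ 0 ∧ (∀ l, 0 < a l) ∧
      (∀ l, 0 < b l) ∧ A = c * Matrix.diagonal a * c.transpose ∧
      B = c * Matrix.diagonal b * c.transpose := by
  obtain ⟨U, a, hU, hU', ha, hAU⟩ := spec hA
  -- square root
  set s : Fin m → ℝ := fun l => Real.sqrt (a l) with hs
  have hs0 : ∀ l, 0 < s l := fun l => Real.sqrt_pos.2 (ha l)
  set P : Matrix (Fin m) (Fin m) ℝ := U * Matrix.diagonal s with hP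
  set Q : Matrix (Fin m) (Fin m) ℝ := Matrix.diagonal (fun l => (s l)⁻¹) * U.transpose with hQ
  have hdd : Matrix.diagonal s * Matrix.diagonal (fun l => (s l)⁻¹) = 1 := by
    rw [Matrix.diagonal_mul_diagonal]
    simp [fun l => mul_inv_cancel₀ (hs0 l).ne']
  have hPQ : P * Q = 1 := by
    rw [hP, hQ, Matrix.mul_assoc, ← Matrix.mul_assoc (Matrix.diagonal s), hdd, Matrix.one_mul, hU]
  have hQP : Q * P = 1 := mul_eq_one_comm.1 hPQ
  have hPP : A = P * P.transpose := by
    have hss : Matrix.diagonal a = Matrix.diagonal s * Matrix.diagonal s := by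
      rw [Matrix.diagonal_mul_diagonal]
      congr 1
      funext l
      exact (Real.mul_self_sqrt (ha l).le).symm
    rw [hAU, hP, Matrix.transpose_mul, Matrix.diagonal_transpose, hss]
    simp only [Matrix.mul_assoc]
  have hQu : IsUnit Q := IsUnit.of_mul_eq_one P hQP
  have hB' : (Q * B * Q.transpose).PosDef := by
    have h1 := (Matrix.IsUnit.posDef_star_right_conjugate_iff hQu (x := B)).2 hB
    rwa [Matrix.star_eq_conjTranspose, Matrix.conjTranspose_eq_transpose_of_trivial] at h1
  obtain ⟨V, b, hV, hV', hb, hBV⟩ := spec hB'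
  refine ⟨P * V, fun _ => 1, b, ?_, fun _ => one_pos, hb, ?_, ?_⟩
  · intro h0
    have h1 : (P * V * (V.transpose * Q)).det = 1 := by
      rw [Matrix.mul_assoc, ← Matrix.mul_assoc V, hV, Matrix.one_mul, hPQ, Matrix.det_one]
    rw [Matrix.det_mul, h0, zero_mul] at h1
    exact zero_ne_one h1
  · have h1 : Matrix.diagonal (fun _ : Fin m => (1 : ℝ)) = 1 := Matrix.diagonal_one
    rw [h1, Matrix.mul_one, Matrix.transpose_mul, Matrix.mul_assoc, ← Matrix.mul_assoc V, hV,
      Matrix.one_mul, hPP]
  · have h1 : P * (Q * B * Q.transpose) * P.transpose = B := by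
      have h2 : Q.transpose * P.transpose = 1 := by
        rw [← Matrix.transpose_mul, hPQ, Matrix.transpose_one]
      calc P * (Q * B * Q.transpose) * P.transpose
          = (P * Q) * B * (Q.transpose * P.transpose) := by simp only [Matrix.mul_assoc]
        _ = B := by rw [hPQ, h2, Matrix.one_mul, Matrix.mul_one]
    calc B = P * (Q * B * Q.transpose) * P.transpose := h1.symm
      _ = P * (V * Matrix.diagonal b * V.transpose) * P.transpose := by rw [← hBV]
      _ = P * V * Matrix.diagonal b * (P * V).transpose := by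
        rw [Matrix.transpose_mul P V]
        simp only [Matrix.mul_assoc]

end Pool.Agent.Helper41.KP
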